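import Pool.Agent.Lib.MP_ce738d_pr.Q1

open Filter Topology

namespace Pool.Agent.Results.MP_ce738d_pr.GreedyMinusLeaf

open Pool.Agent.Lib.MP_ce738d_pr

/-- **Q1**: `E[L⁺_n] - E[L_n] ~ (3/π²) log² n`, for every tie-breaking probability `β`. -/
theorem result (β : ℝ) :
    Tendsto (fun n : ℕ => (ELplus β n - EL n) / Real.log n ^ 2) atTop (𝓝 (3 / Real.pi ^ 2)) :=
  Q1_asymp β

end Pool.Agent.Results.MP_ce738d_pr.GreedyMinusLeaf
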