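import Pool.Agent.Lib.MP_ce738d_pr.HeightFinal

open Filter Topology Asymptotics

namespace Pool.Agent.Results.MP_ce738d_pr.HeightMinusGreedy

open Pool.Agent.Lib.MP_ce738d_pr

/-- **Q2**: `E[L^*_n] - E[L⁺_n] = Θ(log² n)`, for every tie-breaking probability `β`. -/
theorem result (β : ℝ) :
    (fun n : ℕ => ELstar n - ELplus β n) =Θ[atTop] (fun n : ℕ => Real.log n ^ 2) :=
  Q2_theta β

end Pool.Agent.Results.MP_ce738d_pr.HeightMinusGreedy
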